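import Pool.Agent.Helper40.Ct.Goals

/-! # Packet 2539: no contribution if all vectors are in an open half space -/

set_option autoImplicit false

open Finset

namespace Pool.Agent.Helper89.Ct

open Pool.Agent.Helper40.Ct

theorem fpi_side {d r : ℕ} {α : Type} (u : α → El d r → (Fin d → ℝ)) (X : List α) (k : Fin d)
    (s : ℝ) (hs : ∀ x ∈ X, ∀ e, 0 < s * u x e k) (π : Fac d r) (l : List (α × El d r))
    (hl : ∀ q ∈ l, q.1 ∈ X) : fpi u π l = 0 := by
  unfold fpi dgL
  split_ifs with h
  · unfold dg
    rw [if_neg]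
    rintro ⟨c, hc, hb⟩
    have hq : ∀ t : Fin ((d + 1) * (r + 1)), ∃ q ∈ l, enc π (u q.1 q.2) q.2 =
        (l.map fun q => enc π (u q.1 q.2) q.2).get (Fin.cast h.symm t) := by
      intro t
      exact List.mem_map.1 (List.get_mem _ _)
    choose q hql hqe using hq
    have h1 := congrFun hb (finProdFinEquiv ((0 : Fin (d + 1)), (0 : Fin (r + 1))))
    have h2 := congrFun hb (finProdFinEquiv (k.succ, (0 : Fin (r + 1))))
    simp only [Finset.sum_apply, Pi.smul_apply, smul_eq_mul, ← hqe] at h1 h2
    simp only [enc, bvec, Equiv.symm_apply_apply, Fin.cons_zero, Fin.cons_succ, if_true] at h1 h2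
    rw [if_neg (Fin.succ_ne_zero k)] at h2
    have h3 : ∑ t, c t * (if (0 : Fin (r + 1)) = part π (q t).2 then
        s * u (q t).1 (q t).2 k else 0) = 0 := by
      have : ∑ t, c t * (if (0 : Fin (r + 1)) = part π (q t).2 then
          s * u (q t).1 (q t).2 k else 0) =
          s * ∑ t, c t * (if (0 : Fin (r + 1)) = part π (q t).2 then
            u (q t).1 (q t).2 k else 0) := by
        rw [Finset.mul_sum]
        refine Finset.sum_congr rfl fun t _ => ?_
        split_ifs <;> ring
      rw [this, h2, mul_zero]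
    have h4 : ∀ t ∈ (univ : Finset (Fin ((d + 1) * (r + 1)))),
        c t * (if (0 : Fin (r + 1)) = part π (q t).2 then
          s * u (q t).1 (q t).2 k else 0) = 0 := by
      refine (Finset.sum_eq_zero_iff_of_nonneg fun t _ => ?_).1 h3
      refine mul_nonneg (hc t) ?_
      split_ifs
      · exact (hs _ (hl _ (hql t)) _).le
      · exact le_rfl
    have h5 : ∑ t, c t * (if (0 : Fin (r + 1)) = part π (q t).2 then (1 : ℝ) else 0) = 0 := by
      refine Finset.sum_eq_zero fun t ht => ?_
      have h6 := h4 t ht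
      by_cases hp : (0 : Fin (r + 1)) = part π (q t).2
      · rw [if_pos hp] at h6 ⊢
        rcases mul_eq_zero.1 h6 with h7 | h7
        · rw [h7, zero_mul]
        · exact absurd h7 (hs _ (hl _ (hql t)) _).ne'
      · rw [if_neg hp, mul_zero]
    rw [h5] at h1
    exact zero_ne_one h1
  · rfl

theorem side : PATHS → SIDE := by
  intro hP d r α u X k s hs
  unfold cc
  refine Finset.sum_eq_zero fun π _ => ?_
  have h := hP α (El d r) 0 (elList d r) X (fpi u π) (fun l h1 _ _ => by
    rw [fpi_side u X k s hs π l fun q hq => (h1 q hq).1])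
  rw [zero_dvd_iff.1 h, mul_zero]

end Pool.Agent.Helper89.Ct
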